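import Mathlib

open Set Filter Topology Complex

namespace Pool.Agent.H.MP_2184e2_an

variable {P : Type} [NormedAddCommGroup P] [NormedSpace ℝ P] {n : ℕ}

/-- Parameters of the complex tangent vectors of the image of `Θ`. -/
noncomputable def Tc (Θ : P → Fin n → ℂ) (p : P) : Submodule ℝ P :=
  (LinearMap.range (fderiv ℝ Θ p).toLinearMap).comap (I • fderiv ℝ Θ p).toLinearMap

/-- Second derivative in the direction `a`. -/
noncomputable def D2 {F : Type} [NormedAddCommGroup F] [NormedSpace ℝ F] (Θ : P → F) (p a : P) : F :=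
  fderiv ℝ (fun q => fderiv ℝ Θ q a) p a

/-- The tangent vector `ν` represents the value of the Levi form at the complex tangent vector `a`. -/
def Lev (Θ : P → Fin n → ℂ) (p a ν : P) : Prop :=
  ∃ a' c, fderiv ℝ Θ p a' = I • fderiv ℝ Θ p a ∧
    I • fderiv ℝ Θ p ν = D2 Θ p a + D2 Θ p a' + fderiv ℝ Θ p c

/-- The image of `Θ` is a real-analytic CR manifold with condition (L). -/
structure CRL (Θ : P → Fin n → ℂ) : Prop where
  an : AnalyticOnNhd ℝ Θ univ
  emb : IsEmbedding Θ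
  imm : ∀ p, Function.Injective (fderiv ℝ Θ p)
  dim : ∃ m, ∀ p, Module.finrank ℝ (Tc Θ p) = m
  tot : ∀ p, ∀ a ∈ Tc Θ p, ∃ ν, Lev Θ p a ν
  sharp : ∀ p, 0 ∉ convexHull ℝ {ν | ∃ a ≠ 0, Lev Θ p a ν}
  int : ∀ p, (interior (convexHull ℝ {ν | ∃ a, Lev Θ p a ν})).Nonempty

end Pool.Agent.H.MP_2184e2_an
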