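import Mathlib
import Pool.Agent.H.MP_2184e2_an.D

open Set Filter Topology Complex

namespace Pool.Agent.H.MP_2184e2_an

variable {r c n : ℕ}

abbrev Q (r c : ℕ) := (Fin r → ℂ) × (Fin c → ℝ)
abbrev S (r c : ℕ) := (Fin r → ℂ) × (Fin c → ℂ)

noncomputable def κ (c : ℕ) : (Fin c → ℝ) →L[ℝ] Fin c → ℂ :=
  ContinuousLinearMap.pi fun j => ofRealCLM.comp (ContinuousLinearMap.proj j)

noncomputable def θ (φ : (Fin r → ℂ) → Fin c → ℝ) (p : Q r c) : S r c := (p.1, κ c p.2 + I • κ c (φ p.1))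

variable {φ : (Fin r → ℂ) → Fin c → ℝ} (hφ : ∀ z, AnalyticAt ℝ φ z)
include hφ

lemma aθ (p : Q r c) : AnalyticAt ℝ (θ φ) p :=
  analyticAt_fst.prod ((((κ c).analyticAt _).comp analyticAt_snd).add
    ((((κ c).analyticAt _).comp ((hφ _).comp analyticAt_fst)).const_smul (c := I)))

lemma dθ (p a : Q r c) : fderiv ℝ (θ φ) p a = (a.1, κ c a.2 + I • κ c (fderiv ℝ φ p.1 a.1)) := by
  have := (hasFDerivAt_fst (p := p)).prodMk (((κ c).hasFDerivAt.comp p hasFDerivAt_snd).add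
    (((κ c).hasFDerivAt.comp p ((hφ p.1).differentiableAt.hasFDerivAt.comp p hasFDerivAt_fst)).const_smul I))
  erw [this.fderiv]
  simp

lemma ddθ (p a : Q r c) : D2 (θ φ) p a = (0, I • κ c (D2 φ p.1 a.1)) := by
  have d : DifferentiableAt ℝ (fun z => fderiv ℝ φ z a.1) p.1 :=
    (hφ p.1).fderiv.differentiableAt.clm_apply (differentiableAt_const _)
  have := (hasFDerivAt_const a.1 p).prodMk ((((κ c).hasFDerivAt.comp p
    (d.hasFDerivAt.comp p hasFDerivAt_fst)).const_smul I).const_add (κ c a.2))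
  simp only [D2, dθ hφ]
  erw [this.fderiv]
  simp

variable {π : S r c → Fin n → ℂ} (hπ : ∀ w, AnalyticAt ℂ π w)
include hπ

lemma dΘ (p a : Q r c) : fderiv ℝ (π ∘ θ φ) p a = fderiv ℂ π (θ φ p) (fderiv ℝ (θ φ) p a) := by
  rw [(((hπ _).differentiableAt.hasFDerivAt.restrictScalars ℝ).comp p
    (aθ hφ p).differentiableAt.hasFDerivAt).fderiv]
  rfl

lemma ddΘ (p a : Q r c) : D2 (π ∘ θ φ) p a = fderiv ℂ (fderiv ℂ π) (θ φ p) (fderiv ℝ (θ φ) p a)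
    (fderiv ℝ (θ φ) p a) + fderiv ℂ π (θ φ p) (D2 (θ φ) p a) := by
  have d : DifferentiableAt ℝ (fun z => fderiv ℝ (θ φ) z a) p :=
    (aθ hφ p).fderiv.differentiableAt.clm_apply (differentiableAt_const _)
  have e := (ContinuousLinearMap.restrictScalarsL ℂ (S r c) (Fin n → ℂ) ℝ ℝ).hasFDerivAt.comp p
    (((hπ _).fderiv.differentiableAt.hasFDerivAt.restrictScalars ℝ).comp p
      (aθ hφ p).differentiableAt.hasFDerivAt)
  simp only [D2, dΘ hφ hπ]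
  erw [(e.clm_apply d.hasFDerivAt).fderiv]
  simp [add_comm]

lemma crl (hi : ∀ p, Function.Injective (fderiv ℂ π (θ φ p))) (he : IsEmbedding (π ∘ θ φ))
    (h3 : ∀ z v, v ≠ 0 → 0 < ∑ j, (D2 φ z v + D2 φ z (I • v)) j)
    (h4 : ∀ z y, (∀ j, 0 < y j) → ∃ v, D2 φ z v + D2 φ z (I • v) = y) : CRL (π ∘ θ φ) := by
  let ℓ : Q r c → Q r c →L[ℝ] Fin c → ℝ := fun p => ContinuousLinearMap.snd ℝ _ _ -
    (fderiv ℝ φ p.1).comp (I • ContinuousLinearMap.fst ℝ _ _)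
  have hℓ : ∀ p a, ℓ p a = a.2 - fderiv ℝ φ p.1 (I • a.1) := fun p a => rfl
  have k : ∀ p ν (y : Fin c → ℝ), (∃ a, I • fderiv ℝ (π ∘ θ φ) p ν =
      fderiv ℂ π (θ φ p) (0, I • κ c y) + fderiv ℝ (π ∘ θ φ) p a) ↔ ℓ p ν = y := fun p ν y => by
    simp only [dΘ hφ hπ, ← map_smul, ← map_add, (hi p).eq_iff, dθ hφ, hℓ, Prod.ext_iff]
    constructor
    · rintro ⟨a, h1, h2⟩
      ext j
      have := congrArg im (congrFun h2 j)
      simp at h1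
      simp [κ, ← h1] at this ⊢
      linarith
    · rintro rfl
      refine ⟨(I • ν.1, -fderiv ℝ φ p.1 ν.1), by simp, ?_⟩
      ext j
      simp [κ, Complex.ext_iff]
  have k0 : ∀ p a, (∃ a', fderiv ℝ (π ∘ θ φ) p a' = I • fderiv ℝ (π ∘ θ φ) p a) ↔ ℓ p a = 0 :=
    fun p a => by simpa [eq_comm, Prod.mk_zero_zero] using k p a 0
  have s : ∀ p a a', fderiv ℝ (π ∘ θ φ) p a' = I • fderiv ℝ (π ∘ θ φ) p a →
      D2 (π ∘ θ φ) p a + D2 (π ∘ θ φ) p a' =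
        fderiv ℂ π (θ φ p) (0, I • κ c (D2 φ p.1 a.1 + D2 φ p.1 (I • a.1))) := fun p a a' h => by
    rw [dΘ hφ hπ, dΘ hφ hπ, ← map_smul, (hi p).eq_iff] at h
    have : a'.1 = I • a.1 := by simpa [dθ hφ] using congrArg Prod.fst h
    rw [ddΘ hφ hπ, ddΘ hφ hπ, h, ddθ hφ, ddθ hφ, this, add_add_add_comm, ← map_add]
    simp [smul_smul]
  have l : ∀ p a ν, Lev (π ∘ θ φ) p a ν ↔ ℓ p a = 0 ∧ ℓ p ν = D2 φ p.1 a.1 + D2 φ p.1 (I • a.1) :=
    fun p a ν => ⟨fun ⟨a', b, h, e⟩ => ⟨(k0 p a).1 ⟨a', h⟩, (k ..).1 ⟨b, by rw [e, s p a a' h]⟩⟩,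
      fun ⟨h, e⟩ => by
        obtain ⟨a', h⟩ := (k0 p a).2 h
        obtain ⟨b, e⟩ := (k ..).2 e
        exact ⟨a', b, h, by rw [e, s p a a' h]⟩⟩
  have t : ∀ p, Tc (π ∘ θ φ) p = LinearMap.ker (ℓ p).toLinearMap := fun p => by
    ext a; exact k0 p a
  have su : ∀ p y, ℓ p (0, y) = y := fun p y => by simp [hℓ]
  refine ⟨fun p _ => (hπ _).restrictScalars.comp (aθ hφ p), he, fun p a a' h => ?_,
    ⟨Module.finrank ℝ (Q r c) - c, fun p => ?_⟩, fun p a ha => ⟨(0, _), (l ..).2 ⟨(k0 p a).1 ha, su ..⟩⟩,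
    fun p h => ?_, fun p => ⟨(0, fun _ => 1), interior_maximal (t := {ν | ∀ j, 0 < ℓ p ν j})
      (fun ν h => subset_convexHull ℝ _ ?_) ?_ fun j => by simp [su]⟩⟩
  · rw [dΘ hφ hπ, dΘ hφ hπ, (hi p).eq_iff, dθ hφ, dθ hφ, Prod.ext_iff] at h
    refine Prod.ext h.1 (funext fun j => ?_)
    simpa [κ] using congrArg re (congrFun h.2 j)
  · have := LinearMap.finrank_range_add_finrank_ker (ℓ p).toLinearMap
    rw [LinearMap.range_eq_top.2 fun y => ⟨_, su p y⟩, finrank_top, Module.finrank_fin_fun] at this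
    rw [t]; omega
  · refine absurd (convexHull_min (t := {ν | 0 < ∑ j, ℓ p ν j}) ?_
      (convex_halfSpace_gt ⟨fun x y => by simp [Finset.sum_add_distrib],
        fun x y => by simp [Finset.mul_sum]⟩ 0) h) (by simp)
    rintro ν ⟨a, a0, h⟩
    obtain ⟨h1, h2⟩ := (l ..).1 h
    simp only [mem_ofPred_eq, h2]
    refine h3 _ _ fun e => a0 (Prod.ext e ?_)
    simpa [hℓ, e] using h1
  · obtain ⟨v, e⟩ := h4 p.1 _ h
    exact ⟨(v, fderiv ℝ φ p.1 (I • v)), (l ..).2 ⟨by simp [hℓ], e.symm⟩⟩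
  · rw [Set.ofPred_forall]
    exact isOpen_iInter_of_finite fun j => isOpen_lt continuous_const (by fun_prop)

end Pool.Agent.H.MP_2184e2_an
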