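import Mathlib
import Pool.Agent.H.MP_2184e2_an.A

open Set Filter Topology Complex Metric

namespace Pool.Agent.H.MP_2184e2_an

lemma par {G : ℂ × ℂ → ℂ} {r : ℝ} {s : ℂ} (h : ∀ t, AnalyticAt ℂ G (circleMap 0 r t, s)) :
    DifferentiableAt ℂ (fun s => ∮ z in C(0, r), G (z, s)) s := by
  obtain ⟨δ, δ0, hδ⟩ := nhds_basis_closedBall.eventually_iff.1
    ((isCompact_uIcc (a := 0) (b := 2 * Real.pi)).eventually_forall_of_forall_eventually (x₀ := s)
      (P := fun s t => AnalyticAt ℂ G (circleMap 0 r t, s)) fun t _ =>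
      (show ContinuousAt (fun x : ℂ × ℝ => (circleMap 0 r x.2, x.1)) (s, t) by fun_prop).eventually
        (h t).eventually_analyticAt)
  have c : ∀ {H : ℂ × ℂ → ℂ}, (∀ w, AnalyticAt ℂ G w → ContinuousAt H w) → ContinuousOn
      (fun x : ℂ × ℝ => deriv (circleMap 0 r) x.2 • H (circleMap 0 r x.2, x.1))
      (closedBall s δ ×ˢ uIcc 0 (2 * Real.pi)) := fun hH x hx => by
    simp only [deriv_circleMap]
    exact (ContinuousAt.smul (f := fun x : ℂ × ℝ => circleMap 0 r x.2 * I) (by fun_prop)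
      ((hH _ (hδ hx.1 _ hx.2)).comp
      (f := fun x : ℂ × ℝ => (circleMap 0 r x.2, x.1)) (by fun_prop))).continuousWithinAt
  have c0 := c fun w hw => hw.continuousAt
  have c1 := c (H := fun w => fderiv ℂ G w (0, 1)) fun w hw =>
    hw.fderiv.continuousAt.clm_apply continuousAt_const
  have sl : ∀ {H : ℂ × ℝ → ℂ}, ContinuousOn H (closedBall s δ ×ˢ uIcc 0 (2 * Real.pi)) →
      ∀ x ∈ closedBall s δ, ContinuousOn (fun t => H (x, t)) (uIcc 0 (2 * Real.pi)) :=
    fun hH x hx => hH.comp (by fun_prop) fun t ht => ⟨hx, ht⟩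
  obtain ⟨C, hC⟩ := ((isCompact_closedBall s δ).prod isCompact_uIcc).exists_bound_of_continuousOn c1
  refine (intervalIntegral.hasDerivAt_integral_of_dominated_loc_of_deriv_le (μ := MeasureTheory.volume)
    (F' := fun x t => deriv (circleMap 0 r) t • fderiv ℂ G (circleMap 0 r t, x) (0, 1))
    (bound := fun _ => C) (closedBall_mem_nhds s δ0) ?_
    (sl c0 s (mem_closedBall_self δ0.le)).intervalIntegrable ?_ (.of_forall fun t ht x hx =>
      hC (x, t) ⟨hx, uIoc_subset_uIcc ht⟩) intervalIntegrable_const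
    (.of_forall fun t ht x hx => ?_)).2.differentiableAt
  · filter_upwards [closedBall_mem_nhds s δ0] with x hx using
      ((sl c0 x hx).mono uIoc_subset_uIcc).aestronglyMeasurable measurableSet_uIoc
  · exact ((sl c1 s (mem_closedBall_self δ0.le)).mono uIoc_subset_uIcc).aestronglyMeasurable
      measurableSet_uIoc
  · exact ((hδ hx t (uIoc_subset_uIcc ht)).differentiableAt.hasFDerivAt.comp_hasDerivAt x
      ((hasDerivAt_const x _).prodMk (hasDerivAt_id x))).fun_const_smul (deriv (circleMap 0 r) t)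

lemma kont {G : ℂ × ℂ → ℂ} (h : ∀ z s, ‖z‖ = √s.im → 0 ≤ s.im → AnalyticAt ℂ G (z, s)) {s : ℂ}
    (hs : 0 < s.im) : (∮ z in C(0, √s.im), G (z, s)) = 0 := by
  have sl : ∀ z s, AnalyticAt ℂ G (z, s) → DifferentiableAt ℂ (fun z => G (z, s)) z := fun z s h =>
    h.differentiableAt.comp z (by fun_prop)
  have tube : ∀ s : ℂ, 0 ≤ s.im → ∃ δ > 0, ∀ᶠ s' in 𝓝 s, |√s'.im - √s.im| < δ ∧
      ∀ z, |‖z‖ - √s.im| < δ → AnalyticAt ℂ G (z, s') := fun s hs => by
    have := (isCompact_Icc (a := -Real.pi) (b := Real.pi)).eventually_forall_of_forall_eventually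
      (x₀ := (√s.im, s)) (P := fun x t => AnalyticAt ℂ G (circleMap 0 x.1 t, x.2)) fun t _ =>
      (show ContinuousAt (fun x : (ℝ × ℂ) × ℝ => (circleMap 0 x.1.1 x.2, x.1.2)) ((√s.im, s), t) by
        unfold circleMap; fun_prop).eventually (h _ _ (by simp) hs).eventually_analyticAt
    rw [nhds_prod_eq, eventually_prod_iff] at this
    obtain ⟨A, hA, B, hB, k⟩ := this
    obtain ⟨δ, δ0, hδ⟩ := Metric.eventually_nhds_iff.1 hA
    refine ⟨δ, δ0, ?_⟩
    filter_upwards [hB, (show ContinuousAt (fun s' : ℂ => √s'.im) s from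
      (Real.continuous_sqrt.comp continuous_im).continuousAt).eventually (ball_mem_nhds _ δ0)] with s' a b
    refine ⟨b, fun z hz => ?_⟩
    simpa [circleMap] using k (hδ hz) a z.arg ⟨(neg_pi_lt_arg z).le, arg_le_pi z⟩
  have an : AnalyticOnNhd ℂ (fun s => ∮ z in C(0, √s.im), G (z, s)) {s | 0 < s.im} := by
    have o : IsOpen {s : ℂ | 0 < s.im} := isOpen_lt continuous_const continuous_im
    refine DifferentiableOn.analyticOnNhd (fun s hs => DifferentiableAt.differentiableWithinAt ?_) o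
    obtain ⟨δ, δ0, hδ⟩ := tube s hs.le
    refine (par (r := √s.im) fun t => h _ _ (by simp) hs.le).congr_of_eventuallyEq ?_
    filter_upwards [hδ, o.mem_nhds hs] with s' ⟨a, b⟩ c
    have k : ∀ r R, 0 < r → r ≤ R → |r - √s.im| < δ → |R - √s.im| < δ →
        (∮ z in C(0, R), G (z, s')) = ∮ z in C(0, r), G (z, s') := fun r R r0 l u v => by
      have : ∀ z ∈ closedBall (0 : ℂ) R \ ball 0 r, DifferentiableAt ℂ (fun z => G (z, s')) z :=
        fun z hz => sl _ _ (b z (by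
          simp at hz; rw [abs_lt] at u v ⊢; constructor <;> linarith [hz.1, hz.2]))
      exact circleIntegral_eq_of_differentiable_on_annulus_off_countable r0 l countable_empty
        (fun z hz => (this z hz).continuousAt.continuousWithinAt) fun z hz =>
        this z ⟨ball_subset_closedBall hz.1.1, fun k => hz.1.2 (ball_subset_closedBall k)⟩
    rcases le_total √s'.im √s.im with l | l
    · exact (k _ _ (Real.sqrt_pos.2 c) l a (by simpa)).symm
    · exact k _ _ (Real.sqrt_pos.2 hs) l (by simpa) a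
  obtain ⟨δ, δ0, hδ⟩ := tube 0 le_rfl
  have z : ∀ᶠ s in 𝓝 (0 : ℂ), (∮ z in C(0, √s.im), G (z, s)) = 0 := by
    filter_upwards [hδ] with s ⟨a, b⟩
    have : ∀ z ∈ closedBall (0 : ℂ) √s.im, DifferentiableAt ℂ (fun z => G (z, s)) z :=
      fun z hz => sl _ _ (b z (by simp at hz a ⊢; exact hz.trans_lt (lt_of_abs_lt a)))
    exact circleIntegral_eq_zero_of_differentiable_on_off_countable (Real.sqrt_nonneg _) countable_empty
      (fun z hz => (this z hz).continuousAt.continuousWithinAt) fun z hz =>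
      this z (ball_subset_closedBall hz.1)
  obtain ⟨t, a, b⟩ := (((((show Continuous fun t : ℝ => t * I by fun_prop).tendsto' 0 0 (by simp)).eventually
    z.eventually_nhds).filter_mono nhdsWithin_le_nhds).and (self_mem_nhdsWithin (s := Ioi (0 : ℝ)))).exists
  exact an.eqOn_zero_of_preconnected_of_eventuallyEq_zero (convex_halfSpace_im_gt 0).isPreconnected
    (z₀ := t * I) (by simpa using b) a hs

variable {r : ℕ}

noncomputable def re' (i : Fin r) : (Fin r → ℂ) →L[ℝ] ℝ := reCLM.comp (ContinuousLinearMap.proj i)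
noncomputable def im' (i : Fin r) : (Fin r → ℂ) →L[ℝ] ℝ := imCLM.comp (ContinuousLinearMap.proj i)

@[fun_prop] lemma aN (i : Fin r) (z : Fin r → ℂ) : AnalyticAt ℝ (fun z : Fin r → ℂ => normSq (z i)) z :=
  (((re' i).analyticAt z).mul ((re' i).analyticAt z)).add (((im' i).analyticAt z).mul ((im' i).analyticAt z))

noncomputable def β (i : Fin r) (v : Fin r → ℂ) : (Fin r → ℂ) →L[ℝ] ℝ :=
  (2 * (v i).re) • re' i + (2 * (v i).im) • im' i

lemma dN (i : Fin r) (z : Fin r → ℂ) : HasFDerivAt (fun z : Fin r → ℂ => normSq (z i)) (β i z) z := by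
  refine (((re' i).hasFDerivAt.mul (re' i).hasFDerivAt).add
    ((im' i).hasFDerivAt.mul (im' i).hasFDerivAt)).congr_fderiv ?_
  rw [β, two_mul, two_mul, add_smul, add_smul]; rfl

lemma βs (i : Fin r) (z v : Fin r → ℂ) : β i z v = β i v z := by simp [β, re', im']; ring

lemma ddN (i : Fin r) (z v : Fin r → ℂ) :
    D2 (fun z : Fin r → ℂ => normSq (z i)) z v = 2 * normSq (v i) := by
  simp only [D2, (dN i _).fderiv, βs i _ v, ContinuousLinearMap.fderiv]
  simp [β, re', im', normSq_apply]; ring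

lemma ddpi {c : ℕ} {φ : (Fin r → ℂ) → Fin c → ℝ} (hφ : ∀ z, AnalyticAt ℝ φ z) (z v : Fin r → ℂ)
    (j : Fin c) : D2 φ z v j = D2 (fun z => φ z j) z v := by
  have k : ∀ {ψ : (Fin r → ℂ) → Fin c → ℝ} {z}, DifferentiableAt ℝ ψ z →
      fderiv ℝ (fun z => ψ z j) z v = fderiv ℝ ψ z v j := fun h => by
    rw [(hasFDerivAt_pi'.1 h.hasFDerivAt j).fderiv]; rfl
  simp only [D2, k (hφ _).differentiableAt]
  exact (k ((hφ z).fderiv.differentiableAt.clm_apply (differentiableAt_const _))).symm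

lemma ddadd {f g : (Fin r → ℂ) → ℝ} (hf : ∀ z, AnalyticAt ℝ f z) (hg : ∀ z, AnalyticAt ℝ g z)
    (z v : Fin r → ℂ) : D2 (fun z => f z + g z) z v = D2 f z v + D2 g z v := by
  simp only [D2, fderiv_fun_add (hf _).differentiableAt (hg _).differentiableAt,
    add_apply]
  rw [fderiv_fun_add ((hf z).fderiv.differentiableAt.clm_apply (differentiableAt_const _))
    ((hg z).fderiv.differentiableAt.clm_apply (differentiableAt_const _))]
  rfl

noncomputable def φ₀ (z : Fin 1 → ℂ) : Fin 1 → ℝ := fun _ => normSq (z 0)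

lemma aφ₀ (z) : AnalyticAt ℝ φ₀ z := AnalyticAt.pi fun _ => aN 0 z

lemma crl₀ {n : ℕ} {π : S 1 1 → Fin n → ℂ} (hπ : ∀ w, AnalyticAt ℂ π w)
    (hi : ∀ p, Function.Injective (fderiv ℂ π (θ φ₀ p))) (he : IsEmbedding (π ∘ θ φ₀)) :
    CRL (π ∘ θ φ₀) := by
  have q : ∀ z v j, (D2 φ₀ z v + D2 φ₀ z (I • v)) j = 4 * normSq (v 0) := fun z v j => by
    simp only [Pi.add_apply, ddpi aφ₀, φ₀, ddN]; simp; ring
  refine crl aφ₀ hπ hi he (fun z v h => ?_) fun z y h => ⟨fun _ => √(y 0) / 2, funext fun j => ?_⟩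
  · have := normSq_pos.2 fun e => h (funext fun j => (Subsingleton.elim j 0 ▸ e : v j = 0))
    simpa [q]
  · rw [q, Subsingleton.elim j 0]
    simp [Real.mul_self_sqrt (h 0).le]; ring

@[fun_prop] lemma a1 {c : ℕ} (i : Fin r) (w : S r c) : AnalyticAt ℂ (fun w : S r c => w.1 i) w :=
  ((ContinuousLinearMap.proj (R := ℂ) (φ := fun _ : Fin r => ℂ) i).analyticAt _).comp analyticAt_fst

@[fun_prop] lemma a2 {c : ℕ} (i : Fin c) (w : S r c) : AnalyticAt ℂ (fun w : S r c => w.2 i) w :=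
  ((ContinuousLinearMap.proj (R := ℂ) (φ := fun _ : Fin c => ℂ) i).analyticAt _).comp analyticAt_snd

noncomputable def π₁ (w : S 1 1) : Fin 4 → ℂ := ![w.1 0 ^ 2, w.1 0 ^ 3, w.1 0 * (w.2 0 - I), w.2 0]

noncomputable def π₂ : S 1 1 →L[ℂ] Fin 4 → ℂ := LinearMap.toContinuousLinearMap
  { toFun := fun w => ![w.1 0, w.2 0, 0, 0]
    map_add' := fun x y => by simp
    map_smul' := fun x y => by simp }

lemma aπ₁ (w) : AnalyticAt ℂ π₁ w := by
  refine AnalyticAt.pi fun i => ?_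
  fin_cases i <;> simp only [π₁, Fin.zero_eta, Fin.mk_one, Fin.reduceFinMk, Matrix.cons_val] <;> fun_prop

lemma dπ₁ (w a : S 1 1) : fderiv ℂ π₁ w a = ![2 * w.1 0 * a.1 0, 3 * w.1 0 ^ 2 * a.1 0,
    a.1 0 * (w.2 0 - I) + w.1 0 * a.2 0, a.2 0] := by
  have u := ((ContinuousLinearMap.proj (R := ℂ) (φ := fun _ : Fin 1 => ℂ) 0).comp
    (ContinuousLinearMap.fst ℂ (Fin 1 → ℂ) (Fin 1 → ℂ))).hasFDerivAt (x := w)
  have v := ((ContinuousLinearMap.proj (R := ℂ) (φ := fun _ : Fin 1 => ℂ) 0).comp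
    (ContinuousLinearMap.snd ℂ (Fin 1 → ℂ) (Fin 1 → ℂ))).hasFDerivAt (x := w)
  have k := fun i => hasFDerivAt_pi'.1 (aπ₁ w).differentiableAt.hasFDerivAt i
  ext i
  fin_cases i
  · simpa using congrArg (· a) ((k 0).unique (u.pow 2))
  · simpa using congrArg (· a) ((k 1).unique (u.pow 3))
  · simpa [add_comm, mul_comm] using congrArg (· a) ((k 2).unique (u.mul (v.sub_const I)))
  · simpa using congrArg (· a) ((k 3).unique v)

lemma imθ (p : Q 1 1) : ((θ φ₀ p).2 0).im = normSq ((θ φ₀ p).1 0) := by simp [θ, κ, φ₀]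

lemma iπ₁ (p) : Function.Injective (fderiv ℂ π₁ (θ φ₀ p)) := by
  refine (injective_iff_map_eq_zero _).2 fun a h => ?_
  rw [dπ₁] at h
  have h0 := congrFun h 0
  have h2 := congrFun h 2
  have h3 : a.2 0 = 0 := congrFun h 3
  have := imθ p
  simp [h3, sub_eq_zero] at h0 h2
  refine Prod.ext (funext fun j => ?_) (funext fun j => ?_) <;> rw [Subsingleton.elim j 0]
  · by_contra e
    simp [h0.resolve_right e, h2.resolve_left e] at this
  · exact h3

noncomputable def f₀ (w : Fin 4 → ℂ) : Fin 4 → ℂ :=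
  ![(w 1 * star (w 0) + w 2 * star (w 3 - I)) / (max (normSq (w 0) + normSq (w 3 - I)) (1 / 2) : ℝ),
    w 3, 0, 0]

lemma fπ : f₀ ∘ π₁ ∘ θ φ₀ = π₂ ∘ θ φ₀ := by
  ext p i
  have h := imθ p
  set z := (θ φ₀ p).1 0
  set s := (θ φ₀ p).2 0
  have : 1 / 2 ≤ normSq (z ^ 2) + normSq (s - I) := by
    rw [map_pow, normSq_apply (s - I), ← h]
    simp only [sub_im, I_im]
    nlinarith [mul_self_nonneg (s - I).re, sq_nonneg (s.im - 1 / 2)]
  fin_cases i
  · change (z ^ 3 * star (z ^ 2) + z * (s - I) * star (s - I)) /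
      (max (normSq (z ^ 2) + normSq (s - I)) (1 / 2) : ℝ) = z
    rw [max_eq_left this, div_eq_iff (ofReal_ne_zero.2 (by linarith)), ofReal_add, ← mul_conj, ← mul_conj]
    simp only [RCLike.star_def]; ring
  all_goals rfl

lemma e₂ : IsEmbedding (π₂ ∘ θ φ₀) := by
  refine Function.LeftInverse.isEmbedding (f := fun w => (fun _ => w 0, fun _ => (w 1).re))
    (fun p => ?_) (by fun_prop) (π₂.continuous.comp (continuous_iff_continuousAt.2 fun p =>
      (aθ aφ₀ p).continuousAt))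
  refine Prod.ext (funext fun j => ?_) (funext fun j => ?_) <;> simp [π₂, θ, κ, Subsingleton.elim j 0]

lemma e₁ : IsEmbedding (π₁ ∘ θ φ₀) := by
  refine IsEmbedding.of_comp (g := f₀) (continuous_iff_continuousAt.2 fun p =>
    (aπ₁ _).continuousAt.comp (aθ aφ₀ p).continuousAt) ?_ (fπ ▸ e₂)
  have : Continuous fun w : Fin 4 → ℂ => (w 1 * star (w 0) + w 2 * star (w 3 - I)) /
      (max (normSq (w 0) + normSq (w 3 - I)) (1 / 2) : ℝ) :=
    Continuous.div (by fun_prop) (by fun_prop) fun w =>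
      ofReal_ne_zero.2 (lt_max_of_lt_right (by norm_num)).ne'
  unfold f₀
  fun_prop

lemma iπ₂ : Function.Injective π₂ := fun a b h =>
  Prod.ext (funext fun j => Subsingleton.elim j 0 ▸ congrFun h 0)
    (funext fun j => Subsingleton.elim j 0 ▸ congrFun h 1)

lemma noext₀ {U : Set (Fin 4 → ℂ)} {F : (Fin 4 → ℂ) → Fin 4 → ℂ} (hF : AnalyticOnNhd ℂ F U)
    (hU : range (π₁ ∘ θ φ₀) ⊆ U) (h : ∀ p, F ((π₁ ∘ θ φ₀) p) = (π₂ ∘ θ φ₀) p) : False := by
  have m : ∀ z s : ℂ, ‖z‖ = √s.im → 0 ≤ s.im →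
      θ φ₀ (fun _ => z, fun _ => s.re) = (fun _ => z, fun _ => s) := by
    intro z s a b
    have : normSq z = s.im := by rw [normSq_eq_norm_sq, a, Real.sq_sqrt b]
    refine Prod.ext rfl (funext fun j => ?_)
    simp [θ, κ, φ₀, this, mul_comm I]
  have := kont (G := fun w => fderiv ℂ F (π₁ (fun _ => w.1, fun _ => w.2)) ![2, 3 * w.1, 0, 0] 0)
    (fun z s a b => ?_) (s := I) (by simp)
  · rw [circleIntegral.integral_congr (g := fun z => (z - 0)⁻¹) (by simp) fun z hz => ?_,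
      circleIntegral.integral_sub_center_inv _ (by simp)] at this
    · simp at this
    have n : ‖z‖ = √I.im := mem_sphere_zero_iff_norm.1 hz
    have e := m z I n (by simp)
    set p : Q 1 1 := (fun _ => z, fun _ => I.re)
    have d := ((hF _ (hU ⟨p, rfl⟩)).differentiableAt.hasFDerivAt.restrictScalars ℝ).comp p
      ((aπ₁ _).restrictScalars.comp (aθ aφ₀ p)).differentiableAt.hasFDerivAt
    rw [show F ∘ π₁ ∘ θ φ₀ = π₂ ∘ θ φ₀ from funext h] at d
    have k := fun a => congrFun (congrArg (· a) d.fderiv) 0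
    simp only [dΘ aφ₀ π₂.analyticAt, ContinuousLinearMap.comp_apply, dΘ aφ₀ aπ₁, Function.comp,
      ContinuousLinearMap.coe_restrictScalars', ContinuousLinearMap.fderiv, dθ aφ₀, e, dπ₁] at k
    have k1 := k (fun _ => 1, 0)
    have k2 := k (0, fun _ => 1)
    set T := fderiv ℂ F (π₁ (fun _ => z, fun _ => I))
    set g := fderiv ℝ φ₀ p.1 (fun _ => 1) 0
    have : T ![2, 3 * z, 0, 0] 0 * z = 1 := by
      have := congrArg (· 0) (T.map_add (z • ![2, 3 * z, 0, 0]) ((I * g) • ![0, 0, z, 1]))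
      simp only [map_smul] at this
      simp [κ, π₂] at k1 k2 this
      rw [← k2, show z * 2 = 2 * z by ring, show z * (3 * z) = 3 * z ^ 2 by ring,
        show I * g * z = z * (I * g) by ring, ← k1] at this
      linear_combination -this
    simpa using eq_inv_of_mul_eq_one_left this
  · have a1 : AnalyticAt ℂ (fun w : ℂ × ℂ => π₁ (fun _ => w.1, fun _ => w.2)) (z, s) :=
      (aπ₁ _).comp ((AnalyticAt.pi fun _ => analyticAt_fst).prod (AnalyticAt.pi fun _ => analyticAt_snd))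
    have a2 : AnalyticAt ℂ (fun w : ℂ × ℂ => (![2, 3 * w.1, 0, 0] : Fin 4 → ℂ)) (z, s) := by
      refine AnalyticAt.pi fun i => ?_
      fin_cases i
      exacts [analyticAt_const (v := 2), (analyticAt_const (v := 3)).mul analyticAt_fst,
        analyticAt_const (v := 0), analyticAt_const (v := 0)]
    have a3 := AnalyticAt.comp (f := fun w : ℂ × ℂ => π₁ (fun _ => w.1, fun _ => w.2))
      (hF _ (hU ⟨(fun _ => z, fun _ => s.re), congrArg π₁ (m z s a b)⟩)).fderiv a1
    exact ((ContinuousLinearMap.proj (R := ℂ) (φ := fun _ : Fin 4 => ℂ) 0).analyticAt _).comp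
      (((ContinuousLinearMap.id ℂ ((Fin 4 → ℂ) →L[ℂ] Fin 4 → ℂ)).analyticAt_bilinear _).comp₂ a3 a2)

end Pool.Agent.H.MP_2184e2_an
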