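import Mathlib
import Pool.Agent.H.MP_2184e2_an.B

open Set Filter Topology Complex Metric Asymptotics

namespace Pool.Agent.H.MP_2184e2_an

section
variable {P : Type} [NormedAddCommGroup P] [NormedSpace ℝ P] {x D : P → ℂ}
  (hx : ∀ p, AnalyticAt ℝ x p) (hD : ∀ p, AnalyticAt ℝ D p) (h : ∀ p, ‖x p‖ ^ 2 ≤ ‖D p‖)
include hx hD h

omit hx hD [NormedAddCommGroup P] [NormedSpace ℝ P] in
lemma bd (e j : ℕ) (a : P → ℂ) (p : P) : ‖x p ^ (2 * j + e) * a p / D p ^ j‖ ≤ ‖x p ^ e * a p‖ := by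
  rw [pow_add, mul_assoc, mul_div_right_comm, norm_mul]
  refine mul_le_of_le_one_left (norm_nonneg _) ?_
  rw [pow_mul, ← div_pow, norm_pow, norm_div, norm_pow]
  exact pow_le_one₀ (by positivity) (div_le_one_of_le₀ (h p) (norm_nonneg _))

omit hD in
lemma der0 (e j : ℕ) {a : P → ℂ} (ha : ∀ p, AnalyticAt ℝ a p) {p : P} (d : D p = 0) :
    HasFDerivAt (fun p => x p ^ (2 * j + (e + 2)) * a p / D p ^ j) (0 : P →L[ℝ] ℂ) p := by
  have x0 : x p = 0 := by simpa [d] using h p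
  have := ((hx p).differentiableAt.hasFDerivAt.pow (e + 2)).mul (ha p).differentiableAt.hasFDerivAt
  rw [hasFDerivAt_iff_isLittleO] at this ⊢
  simp only [x0, ne_eq, Nat.add_eq_zero_iff, OfNat.ofNat_ne_zero, and_false, not_false_eq_true,
    zero_pow, zero_mul, zero_div, sub_zero, zero_apply]
  refine (IsBigO.of_bound' (.of_forall (bd h _ j a))).trans_isLittleO ?_
  simpa [x0] using this

lemma der (e j : ℕ) {a : P → ℂ} (ha : ∀ p, AnalyticAt ℝ a p) (p : P) :
    DifferentiableAt ℝ (fun p => x p ^ (2 * j + (e + 3)) * a p / D p ^ j) p ∧ ∀ y,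
      fderiv ℝ (fun p => x p ^ (2 * j + (e + 3)) * a p / D p ^ j) p y = x p ^ (2 * (j + 1) + e) *
      (((2 * j + (e + 3) : ℕ) * a p * fderiv ℝ x p y + x p * fderiv ℝ a p y) * D p -
        j * x p * a p * fderiv ℝ D p y) / D p ^ (j + 1) := by
  by_cases d : D p = 0
  · have := der0 hx h (e + 1) j ha d
    exact ⟨this.differentiableAt, fun y => by rw [this.fderiv]; simp [d]⟩
  have k := ((((hx p).pow (2 * j + (e + 3))).mul (ha p)).div ((hD p).pow j) (pow_ne_zero _ d)).differentiableAt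
  refine ⟨k, fun y => ?_⟩
  have l : ∀ {g : P → ℂ}, DifferentiableAt ℝ g p →
      HasDerivAt (fun t : ℝ => g (p + t • y)) (fderiv ℝ g p y) 0 := fun hg => hg.hasFDerivAt.hasLineDerivAt y
  refine ((l k).unique ((((l (hx p).differentiableAt).pow _).mul (l (ha p).differentiableAt)).div
    ((l (hD p).differentiableAt).pow j) (by simpa using fun e => absurd e d))).trans ?_
  cases j <;> simp <;> field_simp <;> ring

lemma sm [FiniteDimensional ℝ P] (k : ℕ) : ∀ e j : ℕ, 3 * k + 1 ≤ e → ∀ a : P → ℂ,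
    (∀ p, AnalyticAt ℝ a p) → ContDiff ℝ k fun p => x p ^ (2 * j + e) * a p / D p ^ j := by
  induction k with
  | zero =>
    intro e j he a ha
    refine contDiff_zero.2 (continuous_iff_continuousAt.2 fun p => ?_)
    by_cases d : D p = 0
    · have x0 : x p = 0 := by simpa [d] using h p
      have := (((hx p).pow e).mul (ha p)).continuousAt.norm.tendsto
      rw [ContinuousAt, x0, zero_pow (by omega), zero_mul, zero_div]
      exact squeeze_zero_norm (bd h e j a) (by simpa [x0, show e ≠ 0 by omega] using this)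
    · exact ((((hx p).pow _).mul (ha p)).div ((hD p).pow j) (pow_ne_zero _ d)).continuousAt
  | succ k ih =>
    intro e j he a ha
    obtain ⟨e, rfl⟩ : ∃ e', e = e' + 3 := ⟨e - 3, by omega⟩
    rw [Nat.cast_succ, contDiff_succ_iff_fderiv_apply]
    refine ⟨fun p => (der hx hD h e j ha p).1, by simp, fun y => ?_⟩
    simp only [(der hx hD h e j ha _).2]
    have f : ∀ {g : P → ℂ}, (∀ p, AnalyticAt ℝ g p) → ∀ p, AnalyticAt ℝ (fun p => fderiv ℝ g p y) p :=
      fun hg p => ((ContinuousLinearMap.apply ℝ ℂ y).analyticAt _).comp (hg p).fderiv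
    exact ih e (j + 1) (by omega) _ fun p =>
      ((((analyticAt_const.mul (ha p)).mul (f hx p)).add ((hx p).mul (f ha p))).mul (hD p)).sub
        (((analyticAt_const.mul (hx p)).mul (ha p)).mul (f hD p))

end

lemma gen {r c n : ℕ} {φ : (Fin r → ℂ) → Fin c → ℝ} (hφ : ∀ z, AnalyticAt ℝ φ z)
    (π : S r c →L[ℂ] Fin n → ℂ) (hs : Function.Surjective π) (p : Q r c) (v : Fin n → ℂ) :
    ∃ a b, v = fderiv ℝ (π ∘ θ φ) p a + I • fderiv ℝ (π ∘ θ φ) p b := by
  obtain ⟨w, rfl⟩ := hs v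
  refine ⟨(w.1, fun j => (w.2 j).re), (0, fun j => (w.2 j).im - fderiv ℝ φ p.1 w.1 j), ?_⟩
  rw [dΘ hφ π.analyticAt, dΘ hφ π.analyticAt, π.fderiv, ← map_smul, ← map_add, dθ hφ, dθ hφ]
  congr 1
  refine Prod.ext (by simp) (funext fun j => ?_)
  simp [κ, Complex.ext_iff]

lemma emb {r c n : ℕ} {φ : (Fin r → ℂ) → Fin c → ℝ} (hφ : ∀ z, AnalyticAt ℝ φ z)
    (π : S r c →L[ℂ] Fin n → ℂ) (hi : Function.Injective π) : IsEmbedding (π ∘ θ φ) :=
  (π.toLinearMap.isClosedEmbedding_of_injective (LinearMap.ker_eq_bot.2 hi)).isEmbedding.comp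
    (Function.LeftInverse.isEmbedding (f := fun w => (w.1, fun j => (w.2 j).re))
      (fun p => by simp [θ, κ]) (by fun_prop)
      (continuous_iff_continuousAt.2 fun p => (aθ hφ p).continuousAt))

lemma ddP {r : ℕ} (i : Fin r) (m : ℕ) (z v : Fin r → ℂ) :
    D2 (fun z : Fin r → ℂ => normSq (z i) ^ (m + 2)) z v +
      D2 (fun z : Fin r → ℂ => normSq (z i) ^ (m + 2)) z (I • v) =
      4 * (m + 2) ^ 2 * normSq (z i) ^ (m + 1) * normSq (v i) := by
  have k : ∀ v, D2 (fun z : Fin r → ℂ => normSq (z i) ^ (m + 2)) z v =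
      (m + 2) * ((m + 1) * normSq (z i) ^ m * β i v z ^ 2 + normSq (z i) ^ (m + 1) * β i v v) := fun v => by
    have e : (fun z => fderiv ℝ (fun z : Fin r → ℂ => normSq (z i) ^ (m + 2)) z v) =
        fun z => (m + 2) * (normSq (z i) ^ (m + 1) * β i v z) := by
      ext z
      erw [((dN i z).pow (m + 2)).fderiv]
      simp [βs i z v, mul_assoc]
    rw [D2, e]
    erw [((((dN i z).pow (m + 1)).mul (β i v).hasFDerivAt).const_mul _).fderiv]
    simp [βs i z v]; ring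
  rw [k, k]
  simp [β, re', im', normSq_apply]; ring

noncomputable def φ₁ (m : ℕ) (z : Fin 3 → ℂ) : Fin 3 → ℝ :=
  ![normSq (z 0) + normSq (z 0) ^ (m + 2), normSq (z 1), normSq (z 2)]

noncomputable def φ₂ (z : Fin 5 → ℂ) : Fin 1 → ℝ :=
  fun _ => normSq (z 0) + normSq (z 1) + normSq (z 2) + normSq (z 3) + normSq (z 4)

lemma aφ₁ (m z) : AnalyticAt ℝ (φ₁ m) z := by
  refine AnalyticAt.pi fun i => ?_
  fin_cases i
  exacts [(aN 0 z).add ((aN 0 z).pow _), aN 1 z, aN 2 z]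

lemma aφ₂ (z) : AnalyticAt ℝ φ₂ z := AnalyticAt.pi fun _ => by unfold φ₂; fun_prop

noncomputable def σ₁ : S 3 3 →L[ℂ] Fin 6 → ℂ := LinearMap.toContinuousLinearMap
  { toFun := fun w => ![w.1 0, w.1 1, w.1 2, w.2 0, w.2 1, w.2 2]
    map_add' := fun x y => by simp
    map_smul' := fun x y => by simp }

noncomputable def σ₂ : S 5 1 →L[ℂ] Fin 6 → ℂ := LinearMap.toContinuousLinearMap
  { toFun := fun w => ![w.1 0, w.1 1, w.1 2, w.1 3, w.1 4, w.2 0]
    map_add' := fun x y => by simp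
    map_smul' := fun x y => by simp }

lemma b₁ : Function.Bijective σ₁ := Function.bijective_iff_has_inverse.2
  ⟨fun v => (![v 0, v 1, v 2], ![v 3, v 4, v 5]),
    fun w => by ext i <;> fin_cases i <;> rfl, fun v => by ext i; fin_cases i <;> rfl⟩

lemma b₂ : Function.Bijective σ₂ := Function.bijective_iff_has_inverse.2
  ⟨fun v => (![v 0, v 1, v 2, v 3, v 4], ![v 5]),
    fun w => by ext i <;> fin_cases i <;> rfl, fun v => by ext i; fin_cases i <;> rfl⟩

lemma crl₁ (m) : CRL (σ₁ ∘ θ (φ₁ m)) := by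
  have q : ∀ z v, D2 (φ₁ m) z v + D2 (φ₁ m) z (I • v) = ![4 * (1 + (m + 2) ^ 2 * normSq (z 0) ^ (m + 1)) *
      normSq (v 0), 4 * normSq (v 1), 4 * normSq (v 2)] := fun z v => by
    ext j
    fin_cases j <;> simp only [Pi.add_apply, ddpi (aφ₁ m), φ₁, Fin.zero_eta, Fin.mk_one, Fin.reduceFinMk,
      Matrix.cons_val, ddN]
    · have := ddP 0 m z v
      rw [ddadd (aN 0) fun z => (aN 0 z).fun_pow _, ddadd (aN 0) fun z => (aN 0 z).fun_pow _, ddN, ddN]
      simp; linarith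
    all_goals simp; ring
  have l : ∀ z : Fin 3 → ℂ, 0 < 4 * (1 + ((m : ℝ) + 2) ^ 2 * normSq (z 0) ^ (m + 1)) := fun z => by
    have := normSq_nonneg (z 0); positivity
  refine crl (aφ₁ m) σ₁.analyticAt (fun p => by rw [σ₁.fderiv]; exact b₁.1) (emb (aφ₁ m) σ₁ b₁.1) (fun z v h => ?_)
    fun z y h => ⟨![√(y 0 / (4 * (1 + (m + 2) ^ 2 * normSq (z 0) ^ (m + 1)))), √(y 1 / 4), √(y 2 / 4)], ?_⟩
  · have n := fun i => normSq_nonneg (v i)
    have u := mul_nonneg (l z).le (n 0)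
    rw [q, Fin.sum_univ_three]
    simp only [Matrix.cons_val]
    by_contra k
    refine h (funext fun i => normSq_eq_zero.1 ((n i).antisymm' ?_))
    fin_cases i
    · exact nonpos_of_mul_nonpos_right (b := normSq (v 0)) (by linarith [n 1, n 2]) (l z)
    · exact (by linarith [n 2] : normSq (v 1) ≤ 0)
    · exact (by linarith [n 1] : normSq (v 2) ≤ 0)
  · have := (l z).ne'
    rw [q]
    ext j
    fin_cases j <;> simp only [Fin.zero_eta, Fin.mk_one, Fin.reduceFinMk, Matrix.cons_val, normSq_ofReal] <;>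
      rw [Real.mul_self_sqrt (div_pos (h _) (by first | exact l z | norm_num)).le] <;>
      exact mul_div_cancel₀ _ (by first | exact this | norm_num)

lemma crl₂ : CRL (σ₂ ∘ θ φ₂) := by
  have q : ∀ z v j, (D2 φ₂ z v + D2 φ₂ z (I • v)) j = 4 * ∑ i, normSq (v i) := fun z v j => by
    simp only [Pi.add_apply, ddpi aφ₂, φ₂]
    repeat rw [ddadd (fun z => by fun_prop) (aN _)]
    simp [ddN, Fin.sum_univ_five]; ring
  refine crl aφ₂ σ₂.analyticAt (fun p => by rw [σ₂.fderiv]; exact b₂.1) (emb aφ₂ σ₂ b₂.1) (fun z v h => ?_)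
    fun z y h => ⟨Pi.single 0 (√(y 0) / 2), funext fun j => ?_⟩
  · obtain ⟨i, hi⟩ := Function.ne_iff.1 h
    simpa [q] using Finset.sum_pos' (fun i _ => normSq_nonneg (v i)) ⟨i, Finset.mem_univ i, normSq_pos.2 hi⟩
  · rw [q, Subsingleton.elim j 0]
    simp [Fin.sum_univ_five, Real.mul_self_sqrt (h 0).le]; ring

abbrev E := Fin 6 → ℂ

noncomputable def D (w : E) : ℂ := w 3 * w 4 + I * (w 3 + w 4)
noncomputable def A (m : ℕ) (w : E) : Fin 4 → ℂ :=
  ![w 3 * w 4 - I * (w 3 + w 4), 2 * w 0 * w 4, 2 * w 0 ^ (m + 2) * w 4, 2 * w 1 * w 3]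
noncomputable def g (m : ℕ) (k : Fin 4) (w : E) : ℂ := w 0 ^ (m + 2) * A m w k / D w
noncomputable def f (m : ℕ) (w : E) : E := ![w 0, g m 0 w, g m 1 w, g m 2 w, g m 3 w, w 3]

@[fun_prop] lemma an (i : Fin 6) (w : E) : AnalyticAt ℂ (fun w : E => w i) w :=
  (ContinuousLinearMap.proj (R := ℂ) (φ := fun _ : Fin 6 => ℂ) i).analyticAt w

lemma aD (w : E) : AnalyticAt ℂ D w := by unfold D; fun_prop

lemma aA (m) (k : Fin 4) (w : E) : AnalyticAt ℂ (fun z => A m z k) w := by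
  fin_cases k <;> simp only [A, Fin.zero_eta, Fin.mk_one, Fin.reduceFinMk, Matrix.cons_val] <;> fun_prop

lemma key {m} {w : E} (h : w ∈ range (σ₁ ∘ θ (φ₁ m))) :
    (w 3).im = normSq (w 0) + normSq (w 0) ^ (m + 2) ∧ normSq (D w) = normSq (A m w 0) +
      normSq (A m w 1) + normSq (A m w 2) + normSq (A m w 3) ∧ ‖w 0‖ ^ 2 ≤ ‖D w‖ := by
  have a : (w 3).im = normSq (w 0) + normSq (w 0) ^ (m + 2) ∧ (w 4).im = normSq (w 1) := by
    obtain ⟨p, rfl⟩ := h
    simp [σ₁, θ, κ, φ₁, -ofReal_pow]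
  have b : normSq (D w) = normSq (A m w 0) + normSq (A m w 1) + normSq (A m w 2) + normSq (A m w 3) := by
    have : normSq (D w) = normSq (A m w 0) + 4 * (normSq (w 3) * (w 4).im + normSq (w 4) * (w 3).im) := by
      simp [D, A, normSq_apply]; ring
    rw [this, a.1, a.2]
    simp [A]; ring
  refine ⟨a.1, b, ?_⟩
  have n := fun k => normSq_nonneg (A m w k)
  have c : ‖A m w 0‖ ≤ ‖D w‖ := by
    refine (abs_le_of_sq_le_sq' ?_ (norm_nonneg _)).2
    rw [← normSq_eq_norm_sq, ← normSq_eq_norm_sq]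
    linarith [n 1, n 2, n 3]
  have d := norm_sub_le (D w) (A m w 0)
  rw [show D w - A m w 0 = 2 * I * (w 3 + w 4) by simp [D, A]; ring] at d
  have e := im_le_norm (w 3 + w 4)
  simp at d e
  rw [← normSq_eq_norm_sq]
  linarith [a.1, a.2, normSq_nonneg (w 1), pow_nonneg (normSq_nonneg (w 0)) (m + 2)]

lemma maps (m) : MapsTo (f m) (range (σ₁ ∘ θ (φ₁ m))) (range (σ₂ ∘ θ φ₂)) := fun w h => by
  obtain ⟨a, b, c⟩ := key h
  refine ⟨(![w 0, g m 0 w, g m 1 w, g m 2 w, g m 3 w], ![(w 3).re]), funext fun i => ?_⟩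
  fin_cases i
  iterate 5 rfl
  simp [σ₂, θ, κ, φ₂, f, Complex.ext_iff, g, a, -ofReal_pow, -ofReal_div]
  by_cases d : D w = 0
  · have : w 0 = 0 := by simpa [d] using c
    simp [this]
  have := (normSq_pos.2 d).ne'
  field_simp
  rw [b]; ring

lemma smooth (k : ℕ) : ContDiff ℝ k (f (3 * k + 1) ∘ σ₁ ∘ θ (φ₁ (3 * k + 1))) := by
  have c := fun p => (crl₁ (3 * k + 1)).an p trivial
  have s := fun j => sm (fun p => (an 0 _).restrictScalars.comp (c p))
    (fun p => (aD _).restrictScalars.comp (c p)) (fun p => (key ⟨p, rfl⟩).2.2) k (3 * k + 1) 1 le_rfl _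
    fun p => (aA (3 * k + 1) j _).restrictScalars.comp (c p)
  simp only [pow_one, mul_one, add_comm 2] at s
  have t := fun j => contDiff_iff_contDiffAt.2 fun p =>
    ((an j _).restrictScalars.comp (c p)).contDiffAt (n := k)
  refine contDiff_pi.2 fun j => ?_
  fin_cases j
  exacts [t 0, s 0, s 1, s 2, s 3, t 3]

lemma cr (m) (p a a' : Q 3 3) (h : fderiv ℝ (σ₁ ∘ θ (φ₁ (m + 2))) p a' = I • fderiv ℝ (σ₁ ∘ θ (φ₁ (m + 2))) p a) :
    fderiv ℝ (f (m + 2) ∘ σ₁ ∘ θ (φ₁ (m + 2))) p a' = I • fderiv ℝ (f (m + 2) ∘ σ₁ ∘ θ (φ₁ (m + 2))) p a := by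
  set Θ := σ₁ ∘ θ (φ₁ (m + 2))
  have c : ∀ p, AnalyticAt ℝ Θ p := fun p => (crl₁ _).an p trivial
  have l : ∀ {u : E → ℂ}, AnalyticAt ℂ u (Θ p) → ∃ T : E →L[ℂ] ℂ,
      HasFDerivAt (u ∘ Θ) ((T.restrictScalars ℝ).comp (fderiv ℝ Θ p)) p := fun hu =>
    ⟨_, (hu.differentiableAt.hasFDerivAt.restrictScalars ℝ).comp p (c p).differentiableAt.hasFDerivAt⟩
  have s : ∀ j, ∃ T : E →L[ℂ] ℂ,
      HasFDerivAt (g (m + 2) j ∘ Θ) ((T.restrictScalars ℝ).comp (fderiv ℝ Θ p)) p := fun j => by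
    by_cases d : D (Θ p) = 0
    · have := der0 (D := D ∘ Θ) (fun p => (an 0 _).restrictScalars.comp (c p))
        (fun p => (key ⟨p, rfl⟩).2.2) m 1 (fun p => (aA (m + 2) j _).restrictScalars.comp (c p)) d
      simp only [pow_one, mul_one, add_comm 2] at this
      exact ⟨0, this.congr_fderiv (ContinuousLinearMap.zero_comp _).symm⟩
    · exact l ((((an 0 _).pow _).mul (aA _ j _)).div (aD _) d)
  have : ∀ j, ∃ T : E →L[ℂ] ℂ, HasFDerivAt (fun p => f (m + 2) (Θ p) j)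
      ((T.restrictScalars ℝ).comp (fderiv ℝ Θ p)) p := fun j => by
    fin_cases j
    exacts [l (an 0 _), s 0, s 1, s 2, s 3, l (an 3 _)]
  choose T hT using this
  erw [(hasFDerivAt_pi.2 hT).fderiv]
  ext j
  simp [h]

lemma noext {m} {U : Set E} (hU : U ∈ 𝓝 ((σ₁ ∘ θ (φ₁ m)) 0)) {F : E → E} (hF : DifferentiableOn ℂ F U)
    (h : ∀ p, (σ₁ ∘ θ (φ₁ m)) p ∈ U → F ((σ₁ ∘ θ (φ₁ m)) p) = f m ((σ₁ ∘ θ (φ₁ m)) p)) : False := by
  have z : (σ₁ ∘ θ (φ₁ m)) 0 = 0 := by ext i; fin_cases i <;> simp [σ₁, θ, κ, φ₁]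
  obtain ⟨r, r0, hr⟩ := Metric.mem_nhds_iff.1 (z ▸ hU)
  obtain ⟨x, ⟨xr, yr⟩, x0⟩ := ((((continuousAt_id.eventually_lt (continuousAt_const (y := r)) r0).and
    ((show ContinuousAt (fun x : ℝ => x * x + (x * x) ^ (m + 2)) 0 by fun_prop).eventually_lt
      (continuousAt_const (y := r)) (by simpa using r0))).filter_mono nhdsWithin_le_nhds).and
    (self_mem_nhdsWithin (s := Ioi (0 : ℝ)))).exists
  have x0 : 0 < x := x0
  set y := x * x + (x * x) ^ (m + 2) with hy
  have y0 : 0 < y := by positivity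
  let c : ℂ → E := fun t => ![x, 0, 0, I * y, t, 0]
  have dc : Differentiable ℂ c := differentiable_pi.2 fun i => by
    fin_cases i <;> simp only [c, Fin.zero_eta, Fin.mk_one, Fin.reduceFinMk, Matrix.cons_val] <;> fun_prop
  have mc : ∀ t ∈ ball (0 : ℂ) r, c t ∈ U := fun t ht => by
    refine hr ?_
    rw [mem_ball_zero_iff, pi_norm_lt_iff r0]
    intro i
    fin_cases i
    · simpa [c, abs_of_pos x0]
    · simpa [c]
    · simpa [c]
    · simpa [c, abs_of_pos y0]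
    · simpa [c] using ht
    · simpa [c]
  have a : AnalyticOnNhd ℂ (fun t => D (c t) * F (c t) 1 - x ^ (m + 2) * A m (c t) 0) (ball 0 r) := by
    refine DifferentiableOn.analyticOnNhd (fun t ht => ?_) isOpen_ball
    have b := dc t
    exact (((aD _).differentiableAt.comp t b).differentiableWithinAt.mul
      (differentiableWithinAt_pi.1 ((hF _ (mc t ht)).comp t b.differentiableWithinAt mc) 1)).sub
      (((aA m 0 _).differentiableAt.comp t b).const_mul _).differentiableWithinAt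
  have e := a.eqOn_zero_of_preconnected_of_frequently_eq_zero (convex_ball 0 r).isPreconnected
    (mem_ball_self r0) (by
      have t : Tendsto (fun s : ℝ => (s : ℂ)) (𝓝[≠] 0) (𝓝[≠] 0) :=
        tendsto_nhdsWithin_iff.2 ⟨tendsto_nhdsWithin_of_tendsto_nhds
          (by simpa using continuous_ofReal.tendsto 0), eventually_nhdsWithin_of_forall fun s => by simp⟩
      refine t.frequently (Eventually.frequently ?_)
      filter_upwards [t (nhdsWithin_le_nhds (ball_mem_nhds 0 r0))] with s hs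
      have k : c s = (σ₁ ∘ θ (φ₁ m)) (![x, 0, 0], ![0, s, 0]) := by
        ext i; fin_cases i <;> simp [σ₁, θ, κ, φ₁, c, hy]
      have d : D (c s) ≠ 0 := fun d => by
        have := (key ⟨_, k.symm⟩).2.2
        rw [d] at this
        simp [c, x0.ne'] at this
      have l : F (c s) = f m (c s) := by rw [k]; exact h _ (k ▸ mc _ hs)
      rw [l]
      simp only [f, g, Matrix.cons_val]
      field_simp
      simp [c])
  have p : (1 + y : ℂ) ≠ 0 := by exact_mod_cast (by positivity : (1 + y : ℝ) ≠ 0)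
  have := e (x := -(y / (1 + y) : ℝ) * I) (by
    rw [mem_ball_zero_iff, norm_mul, norm_neg, norm_real, norm_I, mul_one,
      Real.norm_of_nonneg (by positivity)]
    exact (div_le_self y0.le (by linarith)).trans_lt yr)
  have d : D (c (-(y / (1 + y) : ℝ) * I)) = 0 := by
    simp [D, c]; field_simp; ring_nf
  have b : A m (c (-(y / (1 + y) : ℝ) * I)) 0 = 2 * y ^ 2 / (1 + y) := by
    simp [A, c]; field_simp; ring_nf; simp
  simp only [d, b] at this
  simp [x0.ne', y0.ne', p] at this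

end Pool.Agent.H.MP_2184e2_an
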